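import Mathlib
import Pool.Agent.H17.EbIm

namespace Pool.Agent.Results.MP_570618_gt.Neg
open Set Topology

/-- Continuous real functions with the topology of pointwise convergence. -/
abbrev Cp (X : Type) [TopologicalSpace X] : Type := {f : X → ℝ // Continuous f}

/-- A compact Hausdorff space that embeds in `Cp K` for a compact Hausdorff `K`. -/
def Eberlein (X : Type) [TopologicalSpace X] : Prop :=
  CompactSpace X ∧ T2Space X ∧ ∃ (K : Type) (_ : TopologicalSpace K), CompactSpace K ∧ T2Space K ∧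
    ∃ e : X → Cp K, IsEmbedding e

/-- Countable tightness. -/
def CountablyTight (Z : Type) [TopologicalSpace Z] : Prop :=
  ∀ (A : Set Z) (z : Z), z ∈ closure A → ∃ A' ⊆ A, A'.Countable ∧ z ∈ closure A'

/-- The closure of each infinite set `A` has a network of cardinality at most that of `A`. -/
def Monolithic (Z : Type) [TopologicalSpace Z] : Prop :=
  ∀ A : Set Z, A.Infinite → ∃ 𝒩 : Set (Set (closure A)), Cardinal.mk 𝒩 ≤ Cardinal.mk A ∧
    ∀ U : Set (closure A), IsOpen U → ∀ x ∈ U, ∃ N ∈ 𝒩, x ∈ N ∧ N ⊆ U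

theorem result : ∃ (X : Type) (_ : TopologicalSpace X), Eberlein X ∧ ∃ S : Set (Cp X), Dense S ∧
    (∃ (Y : Type) (_ : TopologicalSpace Y), T35Space Y ∧ ∃ φ : S → Y, Continuous φ ∧
      Function.Surjective φ ∧ ∃ B : Set Y, IsCompact B ∧ ¬ CountablyTight B ∧
        ¬ SequentialSpace B) ∧
    (∃ (Y : Type) (_ : TopologicalSpace Y), T35Space Y ∧ ∃ φ : S → Y, Continuous φ ∧
      Function.Surjective φ ∧ ∃ B : Set Y, IsCompact B ∧ ¬ Monolithic B) := by
  have key : ∀ {ι : Type} (φ : H17.EbIm.S → ι → ℝ) (B : Set (ι → ℝ)), B ⊆ range φ →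
      range (fun z : (Subtype.val ⁻¹' B : Set (range φ)) => z.1.1) = B := by
    intro ι φ B h
    ext z
    exact ⟨by rintro ⟨y, rfl⟩; exact y.2, fun hz => ⟨⟨⟨z, h hz⟩, hz⟩, rfl⟩⟩
  refine ⟨H17.EbIm.X, inferInstance, ⟨inferInstance, inferInstance, H17.EbIm.X, inferInstance,
    inferInstance, inferInstance, H17.EbIm.eberlein⟩, H17.EbIm.S, H17.EbIm.S_dense, ?_, ?_⟩
  · obtain ⟨φ, hφ, hB⟩ := H17.EbIm.image id Function.injective_id _ H17.W1.cIic
    obtain ⟨A, z, h1, h2, h3⟩ := H17.EbIm.ex1 _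
      (IsInducing.subtypeVal.comp IsInducing.subtypeVal) (key φ _ hB)
    refine ⟨range φ, inferInstance, inferInstance, rangeFactorization φ, hφ.subtype_mk _,
      rangeFactorization_surjective, Subtype.val ⁻¹' _,
      (IsInducing.subtypeVal.isCompact_preimage_iff (by rw [Subtype.range_coe]; exact hB)).2 H17.EbIm.cpt1,
      fun h => ?_, fun h => ?_⟩
    · obtain ⟨A', h4, h5, h6⟩ := h A z h1
      exact h2 (h3 A' h4 h5 h6)
    · refine h2 ((h.isClosed_of_seq A fun x p hx hp => ?_).closure_subset h1)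
      exact h3 (range x) (range_subset_iff.2 hx) (countable_range x)
        (mem_closure_of_tendsto hp (Filter.Eventually.of_forall fun n => ⟨n, rfl⟩))
  · obtain ⟨j, hj⟩ := H17.EbIm.JJ_inj
    obtain ⟨φ, hφ, hB⟩ := H17.EbIm.image j hj _ H17.EbIm.CC_count
    obtain ⟨A, h1, h2, z, U, h3, h4⟩ := H17.EbIm.ex2 _
      (IsEmbedding.subtypeVal.comp IsEmbedding.subtypeVal) (key φ _ hB)
    refine ⟨range φ, inferInstance, inferInstance, rangeFactorization φ, hφ.subtype_mk _,
      rangeFactorization_surjective, Subtype.val ⁻¹' _,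
      (IsInducing.subtypeVal.isCompact_preimage_iff (by rw [Subtype.range_coe]; exact hB)).2 H17.EbIm.cpt2,
      fun h => ?_⟩
    obtain ⟨𝒩, h5, h6⟩ := h A h1
    have hc : 𝒩.Countable := Cardinal.le_aleph0_iff_set_countable.1
      (h5.trans (Cardinal.le_aleph0_iff_set_countable.2 h2))
    choose N N1 N2 N3 using fun α => h6 (Subtype.val ⁻¹' U α)
      ((h3 α).2.1.preimage continuous_subtype_val) ⟨z α, (h3 α).1⟩ (h3 α).2.2
    have hi : Function.Injective N := fun α β h => (h4 α β (N3 α (h ▸ N2 β))).symm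
    exact not_countable_univ ((hc.preimage_of_injOn hi.injOn).mono fun α _ => N1 α)

end Pool.Agent.Results.MP_570618_gt.Neg
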